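import Pool.Agent.H14.KEW.Thick

/-! The reduction map of Milnor K-sheaves for a closed immersion is an epimorphism. -/

open CategoryTheory TopologicalSpace AlgebraicGeometry Pool.Agent.H17.KW

universe u

namespace Pool.Agent.H14.KEW

instance epi_redSh {X Y : Scheme.{u}} (i : Y ⟶ X) [IsClosedImmersion i] (q n : ℕ) :
    Epi (redSh i q n) :=
  (TopCat.Sheaf.isLocallySurjective_iff_epi (X := X.toTopCat) (redSh i q n)).1
    ((TopCat.Presheaf.locally_surjective_iff_surjective_on_stalks (X := X.toTopCat)
      (redSh i q n).hom).2 (surjective_stalk_redSh i q))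

instance epi_redSh_thick {A : Type u} [CommRing A] [IsLocalRing A] {X : Scheme.{u}}
    (f : X ⟶ Spec (CommRingCat.of A)) (N q n : ℕ) : Epi (redSh (thickι f N) q n) :=
  epi_redSh _ q n

end Pool.Agent.H14.KEW
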