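import Mathlib

/-!
# Factorisation of morphisms of sheaves, checked on stalks
-/

open CategoryTheory TopologicalSpace Opposite Function

universe u

namespace Pool.Agent.H14.KEW

variable {X : TopCat.{u}}

/-- A morphism of sheaves of abelian groups factors through a stalkwise surjective morphism if it
vanishes on the kernels of the stalks. -/
theorem exists_desc {F G H : TopCat.Sheaf AddCommGrpCat.{u} X} (f : F ⟶ G) (g : F ⟶ H)
    (hf : ∀ x, Surjective ((TopCat.Presheaf.stalkFunctor AddCommGrpCat.{u} x).map f.hom))
    (hk : ∀ (x : X) (U : Opens X) (hx : x ∈ U) (s : F.presheaf.obj (op U)),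
      G.presheaf.germ U x hx (f.hom.app (op U) s) = 0 →
      H.presheaf.germ U x hx (g.hom.app (op U) s) = 0) :
    ∃ h : G ⟶ H, f ≫ h = g := by
  have : Epi f := (TopCat.Sheaf.isLocallySurjective_iff_epi f).1
    ((TopCat.Presheaf.locally_surjective_iff_surjective_on_stalks f.hom).2 hf)
  have h0 : Limits.kernel.ι f ≫ g = 0 := by
    apply Sheaf.hom_ext
    apply NatTrans.ext
    funext U
    apply AddCommGrpCat.hom_ext
    ext t
    induction U using Opposite.rec with | op U => ?_
    refine TopCat.Presheaf.section_ext H U _ _ fun x hx => ?_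
    have h1 : f.hom.app (op U) ((Limits.kernel.ι f).hom.app (op U) t) = 0 := by
      have := Limits.kernel.condition f
      have h2 := congrArg (fun φ => φ.hom.app (op U) t) this
      exact h2
    have h3 := hk x U hx ((Limits.kernel.ι f).hom.app (op U) t) (by rw [h1, map_zero])
    refine Eq.trans h3 ?_
    exact (map_zero _).symm
  exact ⟨Abelian.epiDesc f g h0, Abelian.comp_epiDesc f g h0⟩

end Pool.Agent.H14.KEW
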