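import Pool.Agent.H14.KEW.Desc
import Pool.Agent.H14.KM.KStalk
import Pool.Agent.H17.KW.KSheaf

/-!
# Factorisation of morphisms from the Milnor K-sheaf through the K-sheaf of a closed subscheme
-/

open CategoryTheory TopologicalSpace Opposite Function AlgebraicGeometry
open Pool.Agent.H17.KW Pool.Agent.H14.KM

universe u

namespace Pool.Agent.H14.KEW

section local_rep

variable {X : TopCat.{u}} (P : X.Presheaf AddCommGrpCat.{u})

/-- Sections of the associated sheaf come locally from sections of the presheaf. -/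
theorem exists_local_rep {U : Opens X}
    (s : (sheafify (Opens.grothendieckTopology X) P).obj (op U)) {x : X} (hx : x ∈ U) :
    ∃ (V : Opens X) (_ : x ∈ V) (hV : V ≤ U) (s₀ : P.obj (op V)),
      (toSheafify (Opens.grothendieckTopology X) P).app (op V) s₀
        = (sheafify (Opens.grothendieckTopology X) P).map (homOfLE hV).op s := by
  have h : CategoryTheory.Presheaf.IsLocallySurjective (Opens.grothendieckTopology X)
      (toSheafify (Opens.grothendieckTopology X) P) := inferInstance
  obtain ⟨V, i, ⟨s₀, hs⟩, hxV⟩ := h.imageSieve_mem s x hx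
  exact ⟨V, hxV, leOfHom i, s₀, hs⟩

/-- A section of a presheaf whose image in the associated sheaf has germ zero has germ zero. -/
theorem germ_eq_zero_of_toSheafify {U : Opens X} (s : P.obj (op U)) {x : X} (hx : x ∈ U)
    (h : TopCat.Presheaf.germ (sheafify (Opens.grothendieckTopology X) P) U x hx
      ((toSheafify (Opens.grothendieckTopology X) P).app (op U) s) = 0) :
    P.germ U x hx s = 0 := by
  have h1 := TopCat.Presheaf.stalkFunctor_map_germ_apply U x hx
    (toSheafify (Opens.grothendieckTopology X) P) s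
  have := TopCat.Presheaf.stalkFunctor_map_unit_toSheafify_isIso x AddCommGrpCat.{u} P
  have h2 : Injective ((TopCat.Presheaf.stalkFunctor AddCommGrpCat.{u} x).map
      (toSheafify (Opens.grothendieckTopology X) P)) :=
    (ConcreteCategory.bijective_of_isIso _).1
  exact h2 ((h1.trans h).trans (map_zero _).symm)

end local_rep

section push

variable {X Y : TopCat.{u}} {f : Y ⟶ X}

/-- Equality of germs of the direct image under an embedding. -/
theorem germ_push_eq (hf : Topology.IsInducing f) (F : Y.Presheaf AddCommGrpCat.{u})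
    (U U' : Opens X) (y : Y) (hU : f y ∈ U) (hU' : f y ∈ U')
    (t : F.obj (op ((Opens.map f).obj U))) (t' : F.obj (op ((Opens.map f).obj U')))
    (h : F.germ ((Opens.map f).obj U) y hU t = F.germ ((Opens.map f).obj U') y hU' t') :
    ((TopCat.Presheaf.pushforward AddCommGrpCat.{u} f).obj F).germ U (f y) hU t
      = ((TopCat.Presheaf.pushforward AddCommGrpCat.{u} f).obj F).germ U' (f y) hU' t' := by
  have := TopCat.Presheaf.stalkPushforward.stalkPushforward_iso_of_isInducing
    (C := AddCommGrpCat.{u}) hf F y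
  have h2 : Injective (F.stalkPushforward AddCommGrpCat.{u} f y) :=
    (ConcreteCategory.bijective_of_isIso _).1
  apply h2
  have e1 := TopCat.Presheaf.stalkPushforward_germ_apply (C := AddCommGrpCat.{u}) f F U y hU t
  have e2 := TopCat.Presheaf.stalkPushforward_germ_apply (C := AddCommGrpCat.{u}) f F U' y hU' t'
  exact e1.trans (h.trans e2.symm)

theorem germ_eq_zero_of_push (F : Y.Presheaf AddCommGrpCat.{u})
    (U : Opens X) (y : Y) (hU : f y ∈ U) (t : F.obj (op ((Opens.map f).obj U)))
    (h : ((TopCat.Presheaf.pushforward AddCommGrpCat.{u} f).obj F).germ U (f y) hU t = 0) :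
    F.germ ((Opens.map f).obj U) y hU t = 0 := by
  have e1 := TopCat.Presheaf.stalkPushforward_germ_apply (C := AddCommGrpCat.{u}) f F U y hU t
  refine e1.symm.trans ?_
  rw [h]
  exact map_zero _

/-- Germs of the direct image outside the closed image vanish. -/
theorem germ_push_eq_zero_of_notMem (hf : IsClosed (Set.range f))
    (F : TopCat.Sheaf AddCommGrpCat.{u} Y) (U : Opens X) (x : X) (hx : x ∈ U)
    (hxf : x ∉ Set.range f) (t : F.presheaf.obj (op ((Opens.map f).obj U))) :
    ((TopCat.Presheaf.pushforward AddCommGrpCat.{u} f).obj F.presheaf).germ U x hx t = 0 := by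
  set W : Opens X := U ⊓ ⟨(Set.range f)ᶜ, hf.isOpen_compl⟩ with hW
  have hxW : x ∈ W := ⟨hx, hxf⟩
  have hWU : W ≤ U := inf_le_left
  rw [← TopCat.Presheaf.germ_res_apply _ (homOfLE hWU) x hxW]
  have h1 : ((TopCat.Presheaf.pushforward AddCommGrpCat.{u} f).obj F.presheaf).map
      (homOfLE hWU).op t = 0 := by
    refine TopCat.Presheaf.section_ext F ((Opens.map f).obj W) _ _ fun y hy => ?_
    exact absurd ⟨y, rfl⟩ hy.2
  rw [h1, map_zero]

end push

section psi

variable {X : Scheme.{u}} {n : ℕ}

/-- A morphism from the presheaf of Milnor K-groups induces a homomorphism on the Milnor K-groups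
of the stalks. -/
theorem exists_psi {P : X.toTopCat.Presheaf AddCommGrpCat.{u}} (g : KPre X n ⟶ P) (x : X) :
    ∃ ψ : H62.MK.MilnorK (X.presheaf.stalk x) n →+ P.stalk x,
      ∀ (V : Opens X.toTopCat) (hV : x ∈ V) (s : H62.MK.MilnorK (X.presheaf.obj (op V)) n),
      ψ (H62.MK.map (X.presheaf.germ V x hV).hom n s)
        = P.germ V x hV (g.app (op V) s) := by
  refine exists_stalk_lift (O := X.presheaf) (x := x)
    (fun V hV => ((P.germ V x hV).hom.comp (g.app (op V)).hom)) ?_
  intro V W hV hW h a
  have e1 : H62.MK.sym (fun j => resU X.presheaf h (a j))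
      = (KPre X n).map (homOfLE h).op (H62.MK.sym a) :=
    (H62.MK.map_sym (X.presheaf.map (homOfLE h).op).hom a).symm
  have e2 : g.app (op W) ((KPre X n).map (homOfLE h).op (H62.MK.sym a))
      = P.map (homOfLE h).op (g.app (op V) (H62.MK.sym a)) :=
    NatTrans.naturality_apply g (homOfLE h).op (H62.MK.sym a)
  show P.germ W x hW (g.app (op W) (H62.MK.sym fun j => resU X.presheaf h (a j)))
    = P.germ V x hV (g.app (op V) (H62.MK.sym a))
  rw [e1]
  refine (congrArg (P.germ W x hW) e2).trans ?_
  exact TopCat.Presheaf.germ_res_apply P (homOfLE h) x hW _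

end psi

section fact

variable {X Y : Scheme.{u}} {n : ℕ} {G : AbSh X}

/-- The germ at `x` of the image under `g` of the symbol of units on a neighbourhood `V` of `x`. -/
noncomputable def symGerm (g : KSh X n ⟶ G) (x : X) (V : Opens X.toTopCat) (hV : x ∈ V)
    (a : Fin n → (X.presheaf.obj (op V))ˣ) :
    TopCat.Presheaf.stalk (C := AddCommGrpCat.{u}) (X := X.toTopCat) G.obj x :=
  TopCat.Presheaf.germ (C := AddCommGrpCat.{u}) (X := X.toTopCat) G.obj V x hV (g.hom.app (op V)
    ((toSheafify (Opens.grothendieckTopology X.toTopCat) (KPre X n)).app (op V) (H62.MK.sym a)))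

variable (i : Y ⟶ X) (q : ℕ)

theorem redSh_toSheafify (V : Opens X.toTopCat) (s : H62.MK.MilnorK (X.presheaf.obj (op V)) n) :
    (redSh i q n).hom.app (op V)
      ((toSheafify (Opens.grothendieckTopology X.toTopCat) (KPre X n)).app (op V) s)
      = (redPre i q n).app (op V) s := by
  have h := toSheafify_sheafifyLift (Opens.grothendieckTopology X.toTopCat) (redPre i q n)
    (dirIm i (KModSh Y q n)).2
  exact congrArg (fun φ => φ.app (op V) s) h

theorem redPre_apply (V : Opens X.toTopCat) (s : H62.MK.MilnorK (X.presheaf.obj (op V)) n) :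
    (redPre i q n).app (op V) s
      = (toSheafify (Opens.grothendieckTopology Y.toTopCat) (KModPre Y q n)).app
          (op ((Opens.map i.base).obj V)) (toModQ q _ (H62.MK.map (i.c.app (op V)).hom n s)) :=
  rfl

/-- The homomorphism on the Milnor K-group of the local ring given by a morphism of sheaves. -/
theorem exists_psi_sheaf (g : KSh X n ⟶ G) (x : X) :
    ∃ ψ : H62.MK.MilnorK (X.presheaf.stalk x) n →+
        TopCat.Presheaf.stalk (C := AddCommGrpCat.{u}) (X := X.toTopCat) G.obj x,
      (∀ (V : Opens X.toTopCat) (hV : x ∈ V) (s : H62.MK.MilnorK (X.presheaf.obj (op V)) n),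
        ψ (H62.MK.map (X.presheaf.germ V x hV).hom n s)
          = TopCat.Presheaf.germ (C := AddCommGrpCat.{u}) (X := X.toTopCat) G.obj V x hV
            (g.hom.app (op V) ((toSheafify (Opens.grothendieckTopology X.toTopCat)
              (KPre X n)).app (op V) s))) ∧
      ∀ b : Fin n → (X.presheaf.stalk x)ˣ, ∃ (V : Opens X.toTopCat) (hV : x ∈ V)
        (a : Fin n → (X.presheaf.obj (op V))ˣ),
        (∀ j, X.presheaf.germ V x hV (a j) = b j) ∧ ψ (H62.MK.sym b) = symGerm g x V hV a := by
  obtain ⟨ψ, hψ⟩ := exists_psi (P := G.obj)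
    (toSheafify (Opens.grothendieckTopology X.toTopCat) (KPre X n) ≫ g.hom) x
  refine ⟨ψ, hψ, fun b => ?_⟩
  obtain ⟨V, hV, a, ha⟩ := exists_units_germ (O := X.presheaf) (x := x) b
  refine ⟨V, hV, a, fun j => congrArg Units.val (ha j), ?_⟩
  have h1 := hψ V hV (H62.MK.sym a)
  rw [H62.MK.map_sym] at h1
  have h2 : (fun j => Units.map (X.presheaf.germ V x hV).hom.toMonoidHom (a j)) = b := funext ha
  rw [h2] at h1
  exact h1

/-- A section of `K_n / q` with germ zero at `y` is a `q`-fold element in the Milnor K-group of the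
local ring. -/
theorem exists_smul_of_germ_eq_zero {y : Y} (V : Opens Y.toTopCat) (hV : y ∈ V)
    (s : H62.MK.MilnorK (Y.presheaf.obj (op V)) n)
    (h : TopCat.Presheaf.germ (C := AddCommGrpCat.{u}) (X := Y.toTopCat) (KModPre Y q n) V y hV
      (toModQ q _ s) = 0) :
    ∃ z, q • z = H62.MK.map (Y.presheaf.germ V y hV).hom n s := by
  have h1 : TopCat.Presheaf.germ (C := AddCommGrpCat.{u}) (X := Y.toTopCat) (KModPre Y q n) V y hV
      (toModQ q _ s) = TopCat.Presheaf.germ (C := AddCommGrpCat.{u}) (X := Y.toTopCat)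
        (KModPre Y q n) V y hV (0 : (KModPre Y q n).obj (op V)) := h.trans (map_zero _).symm
  obtain ⟨W, hyW, i1, i2, e⟩ := TopCat.Presheaf.germ_eq (C := AddCommGrpCat.{u}) (X := Y.toTopCat)
    (KModPre Y q n) y hV hV _ _ h1
  have e1 : toModQ q _ (H62.MK.map (Y.presheaf.map i1.op).hom n s) = 0 := e.trans (map_zero _)
  obtain ⟨z, hz⟩ := (toModQ_eq_zero q _ _).1 e1
  refine ⟨H62.MK.map (Y.presheaf.germ W y hyW).hom n z, ?_⟩
  rw [← map_nsmul, hz]
  have e2 : (H62.MK.map (Y.presheaf.germ W y hyW).hom n).comp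
      (H62.MK.map (Y.presheaf.map i1.op).hom n) = H62.MK.map (Y.presheaf.germ V y hV).hom n := by
    rw [← milnor_map_comp]
    congr 1
    exact congrArg CommRingCat.Hom.hom (Y.presheaf.germ_res i1 y hyW)
  exact DFunLike.congr_fun e2 s

theorem isClosedEmbedding_base [IsClosedImmersion i] : Topology.IsClosedEmbedding i.base :=
  i.isClosedEmbedding

/-- The image in `K_n(O_{Y,y})` of a section. -/
theorem map_stalkMap_germ (y : Y) (V : Opens X.toTopCat) (hV : i y ∈ V)
    (s : H62.MK.MilnorK (X.presheaf.obj (op V)) n) :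
    H62.MK.map (i.stalkMap y).hom n (H62.MK.map (X.presheaf.germ V (i y) hV).hom n s)
      = H62.MK.map (Y.presheaf.germ ((Opens.map i.base).obj V) y hV).hom n
          (H62.MK.map (i.c.app (op V)).hom n s) := by
  have e : (H62.MK.map (i.stalkMap y).hom n).comp
      (H62.MK.map (X.presheaf.germ V (i y) hV).hom n)
      = (H62.MK.map (Y.presheaf.germ ((Opens.map i.base).obj V) y hV).hom n).comp
          (H62.MK.map (i.c.app (op V)).hom n) := by
    rw [← milnor_map_comp, ← milnor_map_comp]
    congr 1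
    have := Scheme.Hom.germ_stalkMap i V y hV
    exact congrArg CommRingCat.Hom.hom this
  exact DFunLike.congr_fun e s

theorem surjective_stalk_redSh [IsClosedImmersion i] (x : X) :
    Surjective ((TopCat.Presheaf.stalkFunctor AddCommGrpCat.{u} (X := X.toTopCat) x).map
      (redSh i q n).hom) := by
  intro T
  obtain ⟨U, hU, t, rfl⟩ := TopCat.Presheaf.exists_germ_eq (C := AddCommGrpCat.{u})
    (X := X.toTopCat) (dirIm i (KModSh Y q n)).obj T
  by_cases hx : x ∈ Set.range i
  · obtain ⟨y, rfl⟩ := hx
    obtain ⟨V', hyV', hV', t0, ht0⟩ := exists_local_rep (KModPre Y q n)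
      (U := (Opens.map i.base).obj U) t (x := y) hU
    obtain ⟨t1, rfl⟩ := toModQ_surjective q _ t0
    obtain ⟨r, hr⟩ := map_surjective (φ := (i.stalkMap y).hom) (i.stalkMap_surjective y) n
      (H62.MK.map (Y.presheaf.germ V' y hyV').hom n t1)
    obtain ⟨V, hV, s0, rfl⟩ := exists_map_germ (O := X.presheaf) (x := i y) r
    refine ⟨TopCat.Presheaf.germ (C := AddCommGrpCat.{u}) (X := X.toTopCat) (KSh X n).obj V
      (i y) hV ((toSheafify (Opens.grothendieckTopology X.toTopCat) (KPre X n)).app (op V) s0), ?_⟩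
    have h1 := TopCat.Presheaf.stalkFunctor_map_germ_apply (C := AddCommGrpCat.{u})
      (X := X.toTopCat) V (i y) hV (redSh i q n).hom
      ((toSheafify (Opens.grothendieckTopology X.toTopCat) (KPre X n)).app (op V) s0)
    refine h1.trans ?_
    rw [redSh_toSheafify, redPre_apply]
    refine germ_push_eq (isClosedEmbedding_base i).isInducing (KModSh Y q n).obj V U y hV hU _ t ?_
    have h2 := TopCat.Presheaf.germ_res_apply (C := AddCommGrpCat.{u}) (X := Y.toTopCat)
      (KModSh Y q n).obj (homOfLE hV') y hyV' t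
    refine Eq.trans ?_ h2
    obtain ⟨ψ, hψ⟩ := exists_psi (P := (KModSh Y q n).obj)
      (Functor.whiskerLeft Y.presheaf (MilnorModProj q n) ≫
        toSheafify (Opens.grothendieckTopology Y.toTopCat) (KModPre Y q n)) y
    have h3 := hψ V' hyV' t1
    have h4 := hψ ((Opens.map i.base).obj V) hV (H62.MK.map (i.c.app (op V)).hom n s0)
    rw [← map_stalkMap_germ, hr, h3] at h4
    refine h4.symm.trans ?_
    exact congrArg _ ht0
  · refine ⟨0, ?_⟩
    refine (map_zero _).trans ?_
    exact (germ_push_eq_zero_of_notMem (isClosedEmbedding_base i).isClosed_range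
      (KModSh Y q n) U x hU hx t).symm

/-- FACT: a morphism `g` from the Milnor K-sheaf of `X` to a sheaf `G` factors through
`i_* (K_n(Y) / q)` for a closed immersion `i` if it vanishes outside `Y`, is killed by `q`, and
vanishes on symbols with an entry which is one on `Y`. -/
theorem exists_fact [IsClosedImmersion i] (g : KSh X n ⟶ G)
    (h0 : ∀ (x : X) (_ : x ∉ Set.range i) (V : Opens X.toTopCat) (hV : x ∈ V)
      (a : Fin n → (X.presheaf.obj (op V))ˣ), symGerm g x V hV a = 0)
    (hq : ∀ (x : X) (V : Opens X.toTopCat) (hV : x ∈ V)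
      (a : Fin n → (X.presheaf.obj (op V))ˣ), q • symGerm g x V hV a = 0)
    (h1 : ∀ (y : Y) (V : Opens X.toTopCat) (hV : i y ∈ V)
      (a : Fin n → (X.presheaf.obj (op V))ˣ) (j : Fin n),
      i.stalkMap y (X.presheaf.germ V (i y) hV (a j)) = 1 → symGerm g (i y) V hV a = 0) :
    ∃ h : dirIm i (KModSh Y q n) ⟶ G, redSh i q n ≫ h = g := by
  refine exists_desc (X := X.toTopCat) (redSh i q n) g (surjective_stalk_redSh i q) ?_
  intro x U hx s hs
  obtain ⟨V, hxV, hV, s0, hs0⟩ := exists_local_rep (KPre X n) s hx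
  obtain ⟨ψ, hψ, hb⟩ := exists_psi_sheaf g x
  have e1 : TopCat.Presheaf.germ (C := AddCommGrpCat.{u}) (X := X.toTopCat) G.obj U x hx
      (g.hom.app (op U) s) = ψ (H62.MK.map (X.presheaf.germ V x hxV).hom n s0) := by
    rw [hψ, hs0]
    have h3 := NatTrans.naturality_apply g.hom (homOfLE hV).op s
    refine Eq.trans ?_ (congrArg _ h3.symm)
    exact (TopCat.Presheaf.germ_res_apply (C := AddCommGrpCat.{u}) (X := X.toTopCat)
      G.obj (homOfLE hV) x hxV _).symm
  have e2 : TopCat.Presheaf.germ (C := AddCommGrpCat.{u}) (X := X.toTopCat)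
      (dirIm i (KModSh Y q n)).obj V x hxV ((redPre i q n).app (op V) s0) = 0 := by
    rw [← redSh_toSheafify, hs0]
    have h3 := NatTrans.naturality_apply (redSh i q n).hom (homOfLE hV).op s
    refine (congrArg _ h3).trans ?_
    refine (TopCat.Presheaf.germ_res_apply (C := AddCommGrpCat.{u}) (X := X.toTopCat)
      (dirIm i (KModSh Y q n)).obj (homOfLE hV) x hxV _).trans hs
  refine e1.trans ?_
  have hq' : ∀ b, q • ψ (H62.MK.sym b) = 0 := by
    intro b
    obtain ⟨V', hV', a, _, ha⟩ := hb b
    rw [ha]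
    exact hq x V' hV' a
  by_cases hxi : x ∈ Set.range i
  · obtain ⟨y, rfl⟩ := hxi
    refine hom_eq_zero (φ := (i.stalkMap y).hom) (i.stalkMap_surjective y) (q := q) ψ hq' ?_ ?_
    · rintro b ⟨j, hj⟩
      obtain ⟨V', hV', a, hab, ha⟩ := hb b
      rw [ha]
      refine h1 y V' hV' a j ?_
      rw [hab]
      exact hj
    · rw [redPre_apply] at e2
      rw [map_stalkMap_germ]
      exact exists_smul_of_germ_eq_zero (Y := Y) q (y := y) ((Opens.map i.base).obj V) hxV _
        (germ_eq_zero_of_toSheafify (KModPre Y q n)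
        (U := (Opens.map i.base).obj V) _ hxV
        (germ_eq_zero_of_push (f := i.base) (KModSh Y q n).obj V y hxV _ e2))
  · have h3 : ψ = 0 := by
      refine H62.MK.hom_ext fun b => ?_
      obtain ⟨V', hV', a, _, ha⟩ := hb b
      rw [ha]
      exact h0 x hxi V' hV' a
    rw [h3]
    rfl

end fact

end Pool.Agent.H14.KEW
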