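import Pool.Agent.H14.KEW.Fact
import Pool.Agent.H12.KG.Iface

/-!
# Points and local rings of the thickenings of the special fibre
-/

open CategoryTheory TopologicalSpace Opposite Function AlgebraicGeometry IsLocalRing
open Pool.Agent.H17.KW Pool.Agent.H14.KM Pool.Agent.H12.KG

universe u

namespace Pool.Agent.H14.KEW

section

variable {A : Type u} [CommRing A] [IsLocalRing A] {X : Scheme.{u}}
  (f : X ⟶ Spec (CommRingCat.of A)) (π : A) (N : ℕ) (x : X)

/-- The local ring modulo the `N`-th power of `π`. -/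
abbrev RN : Type u := X.presheaf.stalk x ⧸ (Ideal.span {(stA f x π) ^ N})

/-- The projection. -/
noncomputable abbrev mkN : X.presheaf.stalk x →+* RN f π N x := Ideal.Quotient.mk _

variable {π}

/-- The map from `A / m^N`. -/
noncomputable def rhoN (hπ : maximalIdeal A = Ideal.span {π}) :
    A ⧸ (maximalIdeal A ^ N) →+* RN f π N x :=
  Ideal.Quotient.lift _ ((mkN f π N x).comp (stA f x)) (by
    intro a ha
    rw [hπ, Ideal.span_singleton_pow, Ideal.mem_span_singleton] at ha
    obtain ⟨b, rfl⟩ := ha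
    rw [RingHom.comp_apply, map_mul, map_pow]
    refine Ideal.Quotient.eq_zero_iff_mem.2 ?_
    exact Ideal.mul_mem_right _ _ (Ideal.subset_span rfl))

/-- The morphism `Spec (O_{X,x} / π^N) → X`. -/
noncomputable def specN (π : A) : Spec (CommRingCat.of (RN f π N x)) ⟶ X :=
  Spec.map (CommRingCat.ofHom (mkN f π N x)) ≫ X.fromSpecStalk x

theorem specN_comp (hπ : maximalIdeal A = Ideal.span {π}) :
    specN f N x π ≫ f = Spec.map (CommRingCat.ofHom (rhoN f N x hπ)) ≫
      Spec.map (CommRingCat.ofHom (Ideal.Quotient.mk (maximalIdeal A ^ N))) := by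
  rw [← Spec.map_comp]
  have e : CommRingCat.ofHom (Ideal.Quotient.mk (maximalIdeal A ^ N)) ≫
      CommRingCat.ofHom (rhoN f N x hπ)
      = (Scheme.ΓSpecIso (CommRingCat.of A)).inv ≫ f.appTop ≫ X.presheaf.germ ⊤ x trivial ≫
        CommRingCat.ofHom (mkN f π N x) := rfl
  rw [e]
  refine ext_of_isAffine ?_
  have h0 : ∀ (h : (⊤ : (Spec (X.presheaf.stalk x)).Opens) ≤ ⊤),
      (Spec (X.presheaf.stalk x)).presheaf.map (homOfLE h).op = 𝟙 _ := fun h =>
    (Spec (X.presheaf.stalk x)).presheaf.map_id _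
  rw [Scheme.Hom.comp_appTop, specN, Scheme.Hom.comp_appTop, Scheme.fromSpecStalk_appTop, h0,
    Category.comp_id]
  have h1 := Scheme.ΓSpecIso_naturality ((Scheme.ΓSpecIso (CommRingCat.of A)).inv ≫ f.appTop ≫
    X.presheaf.germ ⊤ x trivial ≫ CommRingCat.ofHom (mkN f π N x))
  rw [← Iso.eq_comp_inv] at h1
  rw [h1]
  simp only [Category.assoc, Iso.hom_inv_id_assoc]
  congr 2
  exact (Scheme.ΓSpecIso_inv_naturality _).symm

/-- The lift to the thickening. -/
noncomputable def liftN (hπ : maximalIdeal A = Ideal.span {π}) :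
    Spec (CommRingCat.of (RN f π N x)) ⟶ thick f N :=
  Limits.pullback.lift (specN f N x π) _ (specN_comp f N x hπ)

theorem liftN_comp (hπ : maximalIdeal A = Ideal.span {π}) :
    liftN f N x hπ ≫ thickι f N = specN f N x π := Limits.pullback.lift_fst _ _ _

omit [IsLocalRing A] in
theorem isLocalRing_RN (h : ¬ IsUnit ((stA f x π) ^ N)) : IsLocalRing (RN f π N x) := by
  have h1 : Ideal.span {(stA f x π) ^ N} ≠ ⊤ := fun h2 => h (Ideal.span_singleton_eq_top.1 h2)
  have : Nontrivial (RN f π N x) := Ideal.Quotient.nontrivial_iff.2 h1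
  exact IsLocalRing.of_surjective' _ Ideal.Quotient.mk_surjective

omit [IsLocalRing A] in
theorem specN_closedPoint [IsLocalRing (RN f π N x)] :
    (specN f N x π) (closedPoint (RN f π N x)) = x := by
  have h1 : IsLocalHom (CommRingCat.ofHom (mkN f π N x)).hom :=
    IsLocalHom.of_surjective (mkN f π N x) Ideal.Quotient.mk_surjective
  rw [specN, Scheme.Hom.comp_apply]
  have h2 := Spec_closedPoint (R := X.presheaf.stalk x) (S := CommRingCat.of (RN f π N x))
    (f := CommRingCat.ofHom (mkN f π N x))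
  exact (congrArg (X.fromSpecStalk x) h2).trans Scheme.fromSpecStalk_closedPoint

/-- A point of the special fibre lies in the thickening. -/
theorem mem_range_thick (hπ : maximalIdeal A = Ideal.span {π}) (hN : N ≠ 0)
    (h : Sp f π x) : x ∈ Set.range (thickι f N) := by
  have h1 : ¬ IsUnit ((stA f x π) ^ N) := fun h2 => h ((isUnit_pow_iff hN).1 h2)
  have := isLocalRing_RN f N x h1
  refine ⟨(liftN f N x hπ) (closedPoint (RN f π N x)), ?_⟩
  rw [← Scheme.Hom.comp_apply, liftN_comp]
  exact specN_closedPoint f N x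

theorem res_top_injective {Z : Scheme.{u}} (W : Z.Opens) (hW : W = ⊤) :
    Injective (Z.presheaf.map (homOfLE (le_top : W ≤ ⊤)).op) := by
  subst hW
  have h : Z.presheaf.map (homOfLE (le_top : (⊤ : Z.Opens) ≤ ⊤)).op = 𝟙 _ := Z.presheaf.map_id _
  rw [h]
  exact injective_id

omit [IsLocalRing A] in
theorem specN_preimage (V : X.Opens) (hV : x ∈ V) : (specN f N x π) ⁻¹ᵁ V = ⊤ := by
  refine top_le_iff.1 fun p _ => ?_
  show (specN f N x π) p ∈ V
  rw [specN, Scheme.Hom.comp_apply]
  have h1 : X.fromSpecStalk x (Spec.map (CommRingCat.ofHom (mkN f π N x)) p)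
      ∈ Set.range (X.fromSpecStalk x) := ⟨_, rfl⟩
  rw [Scheme.range_fromSpecStalk] at h1
  exact h1.mem_open V.2 hV

omit [IsLocalRing A] in
theorem specN_app (V : X.Opens) (hV : x ∈ V) (s : Γ(X, V)) (h : (specN f N x π).app V s = 0) :
    ∃ c, X.presheaf.germ V x hV s = (stA f x π) ^ N * c := by
  have hpre := specN_preimage (π := π) f N x V hV
  set m := Spec.map (CommRingCat.ofHom (mkN f π N x)) with hm
  have e1 : (specN f N x π).app V = X.presheaf.germ V x hV ≫
      (Scheme.ΓSpecIso (X.presheaf.stalk x)).inv ≫ m.appTop ≫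
      (Spec (CommRingCat.of (RN f π N x))).presheaf.map
        (homOfLE (le_top : (specN f N x π) ⁻¹ᵁ V ≤ ⊤)).op := by
    show (m ≫ X.fromSpecStalk x).app V = _
    rw [Scheme.Hom.comp_app, Scheme.fromSpecStalk_app hV, Category.assoc, Category.assoc]
    congr 2
  have e2 : (Scheme.ΓSpecIso (X.presheaf.stalk x)).inv ≫ m.appTop
      = CommRingCat.ofHom (mkN f π N x) ≫ (Scheme.ΓSpecIso _).inv :=
    (Scheme.ΓSpecIso_inv_naturality _).symm
  rw [reassoc_of% e2] at e1
  have h1 : mkN f π N x (X.presheaf.germ V x hV s) = 0 := by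
    rw [e1] at h
    have h3 : (Spec (CommRingCat.of (RN f π N x))).presheaf.map
        (homOfLE (le_top : (specN f N x π) ⁻¹ᵁ V ≤ ⊤)).op
        ((Scheme.ΓSpecIso (CommRingCat.of (RN f π N x))).inv
          (mkN f π N x (X.presheaf.germ V x hV s))) = 0 := h
    have h4 := res_top_injective _ hpre (h3.trans (map_zero _).symm)
    have h5 : Injective (Scheme.ΓSpecIso (CommRingCat.of (RN f π N x))).inv :=
      (ConcreteCategory.bijective_of_isIso _).1
    exact h5 (h4.trans (map_zero _).symm)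
  have h2 := Ideal.Quotient.eq_zero_iff_mem.1 h1
  obtain ⟨c, hc⟩ := Ideal.mem_span_singleton.1 h2
  exact ⟨c, hc⟩

/-- The kernel of the restriction to the thickening. -/
theorem exists_germ_eq_mul (hπ : maximalIdeal A = Ideal.span {π}) (V : X.Opens) (hV : x ∈ V)
    (s : Γ(X, V)) (h : (thickι f N).app V s = 0) :
    ∃ c, X.presheaf.germ V x hV s = (stA f x π) ^ N * c := by
  refine specN_app f N x V hV s ?_
  rw [← liftN_comp f N x hπ, Scheme.Hom.comp_app]
  show (liftN f N x hπ).app _ ((thickι f N).app V s) = 0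
  rw [h, map_zero]

end

section germs

variable {X Y : Scheme.{u}} (i : Y ⟶ X)

theorem exists_app_eq_zero [IsClosedImmersion i] (y : Y) (V : X.Opens) (hV : i y ∈ V)
    (s : Γ(X, V)) (h : i.stalkMap y (X.presheaf.germ V (i y) hV s) = 0) :
    ∃ (W : X.Opens) (hW : W ≤ V) (_ : i y ∈ W), i.app W (X.presheaf.map (homOfLE hW).op s) = 0 := by
  have h1 : Y.presheaf.germ (i ⁻¹ᵁ V) y hV (i.app V s) = Y.presheaf.germ (i ⁻¹ᵁ V) y hV 0 := by
    rw [map_zero, ← Scheme.Hom.germ_stalkMap_apply, h]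
  obtain ⟨W', hyW', i1, i2, e⟩ := Y.presheaf.germ_eq y hV hV _ _ h1
  obtain ⟨W0, hW0, hWW⟩ := (i.isClosedEmbedding.isInducing.isOpen_iff).1 W'.2
  let W : X.Opens := ⟨W0, hW0⟩ ⊓ V
  have hyW : i y ∈ W := by
    refine ⟨?_, hV⟩
    have : y ∈ i ⁻¹' W0 := by rw [hWW]; exact hyW'
    exact this
  have hWV : W ≤ V := inf_le_right
  have hle : i ⁻¹ᵁ W ≤ W' := by
    intro z hz
    have : z ∈ i ⁻¹' W0 := hz.1
    rw [hWW] at this
    exact this
  refine ⟨W, hWV, hyW, ?_⟩
  have h2 : i.app W (X.presheaf.map (homOfLE hWV).op s)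
      = Y.presheaf.map (homOfLE (show i ⁻¹ᵁ W ≤ i ⁻¹ᵁ V from fun z hz => hz.2)).op (i.app V s) :=
    ConcreteCategory.congr_hom (Scheme.Hom.naturality i (homOfLE hWV).op) s
  rw [h2]
  have h3 : Y.presheaf.map i1.op ≫ Y.presheaf.map (homOfLE hle).op
      = Y.presheaf.map (homOfLE (show i ⁻¹ᵁ W ≤ i ⁻¹ᵁ V from fun z hz => hz.2)).op := by
    rw [← Y.presheaf.map_comp]
    rfl
  refine (ConcreteCategory.congr_hom h3 (i.app V s)).symm.trans ?_
  show Y.presheaf.map (homOfLE hle).op (Y.presheaf.map i1.op (i.app V s)) = 0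
  rw [e, map_zero, map_zero]

end germs

section final

variable {A : Type u} [CommRing A] [IsLocalRing A] {X : Scheme.{u}}
  (f : X ⟶ Spec (CommRingCat.of A)) {π : A} (N : ℕ)

instance isClosedImmersion_thickι : IsClosedImmersion (thickι f N) := by
  have h : IsClosedImmersion
      (Spec.map (CommRingCat.ofHom (Ideal.Quotient.mk (maximalIdeal A ^ N)))) :=
    IsClosedImmersion.spec_of_surjective _ Ideal.Quotient.mk_surjective
  exact MorphismProperty.pullback_fst (P := @IsClosedImmersion) _ _ h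

/-- The kernel of the map from the local ring of `X` to the local ring of the thickening. -/
theorem exists_eq_mul_of_stalkMap (hπ : maximalIdeal A = Ideal.span {π}) (y : thick f N)
    (b : X.presheaf.stalk (thickι f N y)) (h : (thickι f N).stalkMap y b = 0) :
    ∃ c, b = (stA f (thickι f N y) π) ^ N * c := by
  obtain ⟨V, hV, s, rfl⟩ := X.presheaf.exists_germ_eq b
  obtain ⟨W, hW, hyW, e⟩ := exists_app_eq_zero (thickι f N) y V hV s h
  obtain ⟨c, hc⟩ := exists_germ_eq_mul f N (thickι f N y) hπ W hyW _ e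
  refine ⟨c, ?_⟩
  rw [← hc]
  exact (TopCat.Presheaf.germ_res_apply X.presheaf (homOfLE hW) _ hyW s).symm

/-- FACT for the thickenings of the special fibre. -/
theorem exists_fact_thick (hπ : maximalIdeal A = Ideal.span {π}) (hN : N ≠ 0) (q : ℕ) {n : ℕ}
    {G : AbSh X} (g : KSh X n ⟶ G)
    (h0 : ∀ (x : X) (_ : ¬ Sp f π x) (V : Opens X.toTopCat) (hV : x ∈ V)
      (a : Fin n → (X.presheaf.obj (op V))ˣ), symGerm g x V hV a = 0)
    (hq : ∀ (x : X) (V : Opens X.toTopCat) (hV : x ∈ V)
      (a : Fin n → (X.presheaf.obj (op V))ˣ), q • symGerm g x V hV a = 0)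
    (h1 : ∀ (x : X) (_ : Sp f π x) (V : Opens X.toTopCat) (hV : x ∈ V)
      (a : Fin n → (X.presheaf.obj (op V))ˣ) (j : Fin n) (c : X.presheaf.stalk x),
      X.presheaf.germ V x hV (a j) = 1 + (stA f x π) ^ N * c → symGerm g x V hV a = 0) :
    ∃ h : dirIm (thickι f N) (KModSh (thick f N) q n) ⟶ G, redSh (thickι f N) q n ≫ h = g := by
  refine exists_fact (thickι f N) q g ?_ hq ?_
  · intro x hx V hV a
    refine h0 x ?_ V hV a
    exact fun h => hx (mem_range_thick f N x hπ hN h)
  · intro y V hV a j h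
    by_cases hs : Sp f π (thickι f N y)
    · obtain ⟨c, hc⟩ := exists_eq_mul_of_stalkMap f N hπ y
        (X.presheaf.germ V (thickι f N y) hV (a j) - 1) (by rw [map_sub, h, map_one, sub_self])
      refine h1 _ hs V hV a j c ?_
      rw [← hc]
      ring
    · exact h0 _ hs V hV a

end final

end Pool.Agent.H14.KEW
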